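import Mathlib

namespace Pool.Agent.H.MP_655bfb_lc

open Set Function

variable {α ι κ : Type}

def Aut (R : (ι → List α) → Prop) : Prop :=
  ∃ (T : Type) (_ : Finite T) (τ : ℕ → (ι → List α) → T), ∀ l l' w w',
    τ l (fun i => (w i).take l) = τ l' (fun i => (w' i).take l') →
      (∀ i, (w i).drop l = (w' i).drop l') → R w → R w'

theorem Aut.of {J : Type} [Finite J] {R : J → (ι → List α) → Prop} (h : ∀ j, Aut (R j))
    {S : (ι → List α) → Prop} (hS : ∀ w w', (∀ j, R j w ↔ R j w') → S w → S w') : Aut S := by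
  choose T _ τ hτ using h
  exact ⟨(j : J) → T j, inferInstance, fun l u j => τ j l u, fun l l' w w' h1 h2 =>
    hS _ _ fun j => ⟨hτ j _ _ _ _ (congrFun h1 j) h2,
      hτ j _ _ _ _ (congrFun h1 j).symm fun i => (h2 i).symm⟩⟩

theorem Aut.not {R : (ι → List α) → Prop} (h : Aut R) : Aut fun w => ¬R w :=
  .of (J := Unit) (fun _ => h) fun _ _ h => mt (h ()).2

theorem Aut.comp {R : (κ → List α) → Prop} (h : Aut R) (t : κ → ι) : Aut fun w => R (w ∘ t) :=
  let ⟨T, i, τ, hτ⟩ := h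
  ⟨T, i, fun l u => τ l (u ∘ t), fun _ _ _ _ h1 h2 => hτ _ _ _ _ h1 fun i => h2 (t i)⟩

theorem Aut.eq (a b : ι) : Aut fun w : ι → List α => w a = w b :=
  ⟨Prop, inferInstance, fun _ u => u a = u b, fun l l' w w' h1 h2 h3 => by
    simp only [h3, eq_iff_iff, true_iff] at h1
    rw [← (w' a).take_append_drop l', ← (w' b).take_append_drop l', h1, ← h2, ← h2, h3]⟩

theorem Aut.ex [Finite κ] {R : (ι ⊕ κ → List α) → Prop} (h : Aut R) :
    Aut fun w => ∃ z, R (Sum.elim w z) := by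
  obtain ⟨T, _, τ, hτ⟩ := h
  refine ⟨Set (T × (κ → Prop)), inferInstance, fun l u => (fun y : κ → List α =>
    (τ l (Sum.elim u y), fun i => (y i).length = l)) '' {y | ∀ i, (y i).length ≤ l}, ?_⟩
  rintro l l' w w' h1 h2 ⟨z, hz⟩
  obtain ⟨y, a1, a2⟩ := h1.le ⟨fun i => (z i).take l, fun i => List.length_take_le _ _, rfl⟩
  obtain ⟨a2, a3⟩ := Prod.mk.inj a2
  have k : ∀ i, (y i ++ (z i).drop l).take l' = y i ∧ (y i ++ (z i).drop l).drop l' = (z i).drop l :=
    fun i => by
      rcases le_or_gt l (z i).length with h | h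
      · have : (y i).length = l' := (congrFun a3 i).ge (by simpa)
        simp [← this]
      · simp [List.drop_eq_nil_of_le h.le, a1 i]
  refine ⟨fun i => y i ++ (z i).drop l, hτ l l' _ _ (Eq.trans ?_ (a2.symm.trans ?_)) ?_ hz⟩
  · congr 1
    ext1 i
    cases i <;> rfl
  · congr 1
    ext1 i
    cases i
    exacts [rfl, (k _).1.symm]
  · rintro (i | i)
    exacts [h2 i, (k i).2.symm]

theorem Aut.reg [Finite ι] {R : (ι ⊕ Unit → List α) → Prop} (h : Aut R) (p : ι → List α)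
    {A : Language α} (hA : ∀ x, x ∈ A ↔ R (Sum.elim p fun _ => x)) :
    ∃ (k : ℕ) (M : DFA α (Fin k)), M.accepts = A := by
  obtain ⟨T, _, τ, hτ⟩ := h
  obtain ⟨P, hP⟩ := (finite_range fun i => (p i).length).bddAbove
  have : A.leftQuotient.FactorsThrough fun u => ((τ u.length (Sum.elim
      (fun i => (p i).take u.length) fun _ => u), ⟨min u.length P, by omega⟩) : T × Fin (P + 1)) := by
    have k : ∀ u u' : List α, τ u.length (Sum.elim (fun i => (p i).take u.length) fun _ => u) =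
        τ u'.length (Sum.elim (fun i => (p i).take u'.length) fun _ => u') →
        min u.length P = min u'.length P → ∀ v, u ++ v ∈ A → u' ++ v ∈ A := fun u u' h1 h2 v => by
      rw [hA, hA]
      refine hτ u.length u'.length _ _ (Eq.trans ?_ (h1.trans ?_)) ?_
      · congr 1
        ext1 i
        cases i <;> simp
      · congr 1
        ext1 i
        cases i <;> simp
      · rintro (i | i)
        · have : (p i).length ≤ P := hP ⟨i, rfl⟩
          rcases eq_or_ne u.length u'.length with h | h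
          · rw [h]
            rfl
          · exact (List.drop_eq_nil_of_le (by simp only [Sum.elim_inl]; omega)).trans
              (List.drop_eq_nil_of_le (by simp only [Sum.elim_inl]; omega)).symm
        · simp
    intro u u' h
    obtain ⟨h1, h2⟩ := Prod.mk.inj h
    exact Set.ext fun v => ⟨k _ _ h1 (Fin.mk.inj h2) v, k _ _ h1.symm (Fin.mk.inj h2).symm v⟩
  obtain ⟨g, hg⟩ := (factorsThrough_iff _).1 this
  obtain ⟨σ, _, M, hM⟩ := Language.isRegular_iff_finite_range_leftQuotient.2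
    (hg ▸ (finite_range g).subset (range_comp_subset_range _ _))
  exact ⟨_, M.reindex (Fintype.equivFin σ), by simpa⟩

def conv {n : ℕ} (w : Fin n → List α) : List (Fin n → Option α) :=
  (List.range (Finset.univ.sup fun j => (w j).length)).map fun i j => (w j)[i]?

theorem conv_cut {n : ℕ} (w : Fin n → List α) (l : ℕ) :
    conv w = conv (fun j => (w j).take l) ++ conv fun j => (w j).drop l := by
  have h1 := Finset.apply_sup_eq_sup_comp_of_linearOrder (s := Finset.univ)
    (f := fun j => (w j).length) (min l ·) (fun _ _ => min_le_min_left l) (by simp)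
  have h2 := Finset.apply_sup_eq_sup_comp_of_linearOrder (s := Finset.univ)
    (f := fun j => (w j).length) (· - l) (fun _ _ h => Nat.sub_le_sub_right h l) (by simp)
  simp only [conv, List.length_take, List.length_drop]
  simp only [comp_def] at h1 h2
  rw [← h1, ← h2]
  generalize (Finset.univ.sup fun j => (w j).length) = m
  rcases le_total m l with h | h
  · rw [min_eq_right h, Nat.sub_eq_zero_of_le h, List.range_zero, List.map_nil, List.append_nil]
    exact List.map_congr_left fun i hi => funext fun j =>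
      (List.getElem?_take_of_lt ((List.mem_range.1 hi).trans_le h)).symm
  · obtain ⟨m, rfl⟩ := Nat.exists_eq_add_of_le h
    rw [min_eq_left h, List.range_add, List.map_append, List.map_map, Nat.add_sub_cancel_left]
    congr 1
    · exact List.map_congr_left fun i hi => funext fun j =>
        (List.getElem?_take_of_lt (List.mem_range.1 hi)).symm
    · exact List.map_congr_left fun i _ => funext fun j => by simp

theorem Aut.run {n : ℕ} {Q : Type} [Finite Q] (step : Q → (Fin n → Option α) → Q) (s q : Q) :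
    Aut fun w => (conv w).foldl step s = q :=
  ⟨Q, inferInstance, fun _ u => (conv u).foldl step s, fun l l' w w' h1 h2 h3 => by
    beta_reduce at h1 h3 ⊢
    rw [← h3, conv_cut w l, conv_cut w' l', List.foldl_append, List.foldl_append, funext h2]
    exact congrArg (List.foldl step · _) h1.symm⟩

variable {W : Type}

def Rk : ℕ → Set (Set W) → Set W → Prop
  | 0, F, _ => F.Nonempty
  | k + 1, F, X => ∃ x ∈ X, Rk k {B ∈ F | x ∈ B} X ∧ Rk k {B ∈ F | x ∉ B} X

theorem Rk.mono : ∀ {k : ℕ} {F F' : Set (Set W)} {X : Set W}, F ⊆ F' → Rk k F X → Rk k F' X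
  | 0, _, _, _, h, h' => Set.Nonempty.mono h h'
  | _ + 1, _, _, _, h, ⟨x, a, b, c⟩ =>
    ⟨x, a, b.mono fun _ d => ⟨h d.1, d.2⟩, c.mono fun _ d => ⟨h d.1, d.2⟩⟩

theorem Rk.ne : ∀ {k : ℕ} {F : Set (Set W)} {X : Set W}, Rk k F X → F.Nonempty
  | 0, _, _, h => h
  | _ + 1, _, _, ⟨_, _, b, _⟩ => b.ne.mono fun _ d => d.1

theorem Rk.split (Y : Set W) : ∀ (p q : ℕ) {F : Set (Set W)} {X : Set W}, Rk (p + q) F X →
    Rk p F (X ∩ Y) ∨ Rk q F (X \ Y)
  | 0, _, _, _, h => Or.inl h.ne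
  | _, 0, _, _, h => Or.inr h.ne
  | p + 1, q + 1, F, X, ⟨x, a, b, c⟩ => by
    by_cases h : x ∈ Y
    · rw [show (p + 1).add q = p + (q + 1) by simp; omega] at b c
      rcases Rk.split Y p (q + 1) b with b | b
      · rcases Rk.split Y p (q + 1) c with c | c
        exacts [Or.inl ⟨x, ⟨a, h⟩, b, c⟩, Or.inr (c.mono fun _ d => d.1)]
      · exact Or.inr (b.mono fun _ d => d.1)
    · rcases Rk.split Y (p + 1) q b with b | b
      · exact Or.inl (b.mono fun _ d => d.1)
      · rcases Rk.split Y (p + 1) q c with c | c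
        exacts [Or.inl (c.mono fun _ d => d.1), Or.inr ⟨x, ⟨a, h⟩, b, c⟩]

open Classical in
noncomputable def cnt {n : ℕ} (t : Fin n → W) (B : Set W) : ℕ := ∑ i, if t i ∈ B then 1 else 0

theorem ladder (n : ℕ) : ∃ K, ∀ (F : Set (Set W)) X, Rk K F X → ∃ t : Fin n → W, Injective t ∧
    (∀ i, t i ∈ X) ∧ (∃ B ∈ F, ∀ i, t i ∈ B) ∧ (∃ B ∈ F, ∀ i, t i ∉ B) ∧
      ∀ i ≤ n, ∃ B ∈ F, cnt t B = i := by
  induction n with
  | zero => exact ⟨0, fun F X ⟨B, h⟩ => ⟨Fin.elim0, injective_of_subsingleton _, by simp,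
      ⟨B, h, by simp⟩, ⟨B, h, by simp⟩, fun i hi => ⟨B, h, by simp [cnt, Nat.le_zero.1 hi]⟩⟩⟩
  | succ n ih =>
    obtain ⟨K, ih⟩ := ih
    refine ⟨K + 1 + (K + 1), fun F X h => ?_⟩
    obtain ⟨B, hB⟩ := h.ne
    rcases h.split B with ⟨x, a, -, c⟩ | ⟨x, a, c, -⟩
    · obtain ⟨t, b1, b2, ⟨C, b3, b4⟩, ⟨D, b5, b6⟩, b7⟩ := ih _ _ c
      refine ⟨Fin.cons x t, Fin.cons_injective_iff.2 ⟨fun ⟨i, e⟩ => b3.2 (e ▸ b4 i), b1⟩,
        Fin.cases a.1 fun i => (b2 i).1, ⟨B, hB, Fin.cases a.2 fun i => (b2 i).2⟩,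
        ⟨D, b5.1, Fin.cases b5.2 b6⟩, fun i hi => ?_⟩
      rcases hi.eq_or_lt with rfl | hi
      · exact ⟨B, hB, by
          rw [cnt, Fin.sum_univ_succ]
          simp [a.2, fun i => (b2 i).2, add_comm]⟩
      · obtain ⟨E, e1, rfl⟩ := b7 i (by omega)
        exact ⟨E, e1.1, by
          rw [cnt, Fin.sum_univ_succ]
          exact (congrArg (· + _) (if_neg e1.2)).trans (zero_add _)⟩
    · obtain ⟨t, b1, b2, ⟨C, b3, b4⟩, ⟨D, b5, b6⟩, b7⟩ := ih _ _ c
      refine ⟨Fin.cons x t, Fin.cons_injective_iff.2 ⟨fun ⟨i, e⟩ => b6 i (e ▸ b5.2), b1⟩,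
        Fin.cases a.1 fun i => (b2 i).1, ⟨C, b3.1, Fin.cases b3.2 b4⟩,
        ⟨B, hB, Fin.cases a.2 fun i => (b2 i).2⟩, fun i hi => ?_⟩
      rcases i with _ | i
      · exact ⟨B, hB, by
          rw [cnt, Fin.sum_univ_succ]
          simp [a.2, fun i => (b2 i).2]⟩
      · obtain ⟨E, e1, rfl⟩ := b7 i (by omega)
        exact ⟨E, e1.1, by
          rw [cnt, Fin.sum_univ_succ]
          exact (congrArg (· + _) (if_pos e1.2)).trans (add_comm _ _)⟩

variable {n : ℕ} (o : (Fin n → W) → Finset ℕ) (j : ℕ)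

def Cz (z : Fin j → W) (B : Set W) : Prop :=
  ∀ s : Fin n → Fin j, Injective (z ∘ s) → cnt (z ∘ s) B ∈ o (z ∘ s)

def R : ℕ → (ι : Type) → (ι → W) → (ι → Prop) → Prop
  | 0, _, w, b => ∀ z, ∃ B, (∀ i, w i ∈ B ↔ b i) ∧ Cz o j z B
  | k + 1, _, w, b => ∃ x : Unit → W, ∀ c, R k _ (Sum.elim w x) (Sum.elim b fun _ => c)

theorem R.tree : ∀ {k : ℕ} {ι : Type} {w : ι → W} {b : ι → Prop}, R o j k ι w b →
    ∃ Z : List W, Z.length < 2 ^ k ∧ ∀ z, (∀ x ∈ Z, x ∈ range z) →
      Rk k {B | (∀ i, w i ∈ B ↔ b i) ∧ Cz o j z B} (range z)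
  | 0, _, _, _, h => ⟨[], by simp, fun z _ => h z⟩
  | k + 1, _, _, _, ⟨x, h⟩ => by
    obtain ⟨Z, a1, a2⟩ := (h True).tree
    obtain ⟨Z', b1, b2⟩ := (h False).tree
    refine ⟨x () :: (Z ++ Z'), by simp; omega, fun z hz => ⟨x (), hz _ (by simp),
      (a2 z fun y hy => hz y (by simp [hy])).mono fun B h => ⟨⟨fun i => h.1 (.inl i), h.2⟩,
        (h.1 (.inr ())).2 trivial⟩,
      (b2 z fun y hy => hz y (by simp [hy])).mono fun B h => ⟨⟨fun i => h.1 (.inl i), h.2⟩,
        (h.1 (.inr ())).1⟩⟩⟩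

theorem bound [Inhabited W] (ho : ∀ t, (o t).card ≤ n) :
    ∃ j K, ¬R o j K Empty Empty.elim Empty.elim := by
  obtain ⟨K, hK⟩ := ladder (W := W) n
  refine ⟨2 ^ K, K, fun h => ?_⟩
  obtain ⟨Z, a1, a2⟩ := h.tree
  obtain ⟨t, b1, b2, -, -, b3⟩ := hK _ _ (a2 (fun i => Z.getD i default) fun x hx => by
    obtain ⟨i, hi, rfl⟩ := List.getElem_of_mem hx
    exact ⟨⟨i, by omega⟩, by simp [hi]⟩)
  choose s hs using b2
  obtain rfl : (fun i : Fin (2 ^ K) => Z.getD i default) ∘ s = t := funext hs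
  have := Finset.card_le_card (s := Finset.range (n + 1)) fun i hi => by
    obtain ⟨B, c1, rfl⟩ := b3 i (by simpa [Nat.lt_succ_iff] using hi)
    exact c1.2 s b1
  have := this.trans (ho _)
  simp at this

theorem defn [Inhabited W] (ho : ∀ t, (o t).card ≤ n) {A : Set W}
    (hA : ∀ t, Injective t → cnt t A ∈ o t) : ∃ (j r : ℕ) (ι : Type) (_ : Finite ι) (w : ι → W)
      (b : ι ⊕ Unit → Prop), ∀ x, x ∈ A ↔ R o j r _ (Sum.elim w fun _ => x) b := by
  classical
  obtain ⟨j, K, h⟩ := bound o ho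
  have k : ∃ r, ∃ (ι : Type) (_ : Finite ι) (w : ι → W), ¬R o j r ι w fun i => w i ∈ A :=
    ⟨K, Empty, inferInstance, Empty.elim, by convert h⟩
  obtain ⟨ι, _, w, hw⟩ := Nat.find_spec k
  have k' := fun r => Nat.find_min k (m := r)
  generalize Nat.find k = r at hw k'
  rcases r with _ | r
  · exact (hw fun z => ⟨A, fun _ => .rfl, fun s => hA _⟩).elim
  have a : ∀ x, R o j r _ (Sum.elim w fun _ : Unit => x) (Sum.elim (fun i => w i ∈ A) fun _ => x ∈ A) :=
    fun x => by_contra fun c => k' r r.lt_succ_self ⟨_, inferInstance, Sum.elim w fun _ => x, by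
      convert c with i
      cases i <;> rfl⟩
  refine ⟨j, r, ι, inferInstance, w, Sum.elim (fun i => w i ∈ A) fun _ => True, fun x =>
    ⟨fun h => by simpa [h] using a x, fun h => by_contra fun c => hw ⟨fun _ => x, fun d => ?_⟩⟩⟩
  by_cases e : d
  · simpa [e] using h
  · simpa [e, c] using a x

theorem aut_R {Q : Type} [Finite Q] (step : Q → (Fin n → Option α) → Q) (s : Q)
    (out : Q → Finset ℕ) : ∀ (k : ℕ) (ι : Type) [Finite ι] (b : ι → Prop),
    Aut fun w => R (fun t => out ((conv t).foldl step s)) j k ι w b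
  | k + 1, ι, _, b => Aut.ex (R := fun w => ∀ c, R (fun t => out ((conv t).foldl step s)) j k _ w
      (Sum.elim b fun _ => c)) (.of (fun c => aut_R step s out k _ (Sum.elim b fun _ => c))
        fun _ _ h h' c => (h c).1 (h' c))
  | 0, ι, _, b => by
    have : Aut fun u : ι ⊕ Fin j → List α => ∃ B, (∀ i, u (.inl i) ∈ B ↔ b i) ∧
        Cz (fun t => out ((conv t).foldl step s)) j (u ∘ .inr) B := by
      refine .of (J := (ι ⊕ Fin j) × (ι ⊕ Fin j) ⊕ (Fin n → Fin j) × Q)
        (R := Sum.elim (fun p u => u p.1 = u p.2)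
          fun p u => (conv (u ∘ .inr ∘ p.1)).foldl step s = p.2) ?_ ?_
      · rintro (p | p)
        exacts [.eq _ _, (Aut.run step s p.2).comp _]
      rintro u u' h ⟨B, h1, h2⟩
      have e : ∀ i, u' i ∈ u' '' {i | u i ∈ B} ↔ u i ∈ B := fun i =>
        ⟨fun ⟨k, a, b⟩ => (h (.inl (k, i))).2 b ▸ a, fun a => ⟨i, a, rfl⟩⟩
      refine ⟨u' '' {i | u i ∈ B}, fun i => (e _).trans (h1 i), fun t ht => ?_⟩
      have := h2 t fun a b c => ht ((h (.inl (.inr _, .inr _))).1 c)
      convert this using 1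
      · exact congrArg out ((h (.inr (t, _))).1 rfl)
      · classical exact Finset.sum_congr rfl fun i _ => if_congr (e _) rfl rfl
    exact .of (J := Unit) (fun _ => this.not.ex) fun w w' h h' z =>
      by_contra fun c => ((h ()).2 ⟨z, c⟩).elim fun z c => c (h' z)

theorem main {Q : Type} [Finite Q] (step : Q → (Fin n → Option α) → Q) (s : Q)
    (out : Q → Finset ℕ) (ho : ∀ q, (out q).card ≤ n) {A : Language α}
    (hA : ∀ w : Fin n → List α, {x | ∃ j, w j = x ∧ x ∈ A}.ncard ∈ out ((conv w).foldl step s)) :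
    ∃ (k : ℕ) (M : DFA α (Fin k)), M.accepts = A := by
  classical
  obtain ⟨j, r, ι, _, w, b, h⟩ := defn (fun t => out ((conv t).foldl step s)) (fun _ => ho _)
    (A := A) fun t ht => by
      convert hA t
      rw [show {x | ∃ j, t j = x ∧ x ∈ A} = t '' ↑(Finset.univ.filter fun j => t j ∈ A) by
        ext x
        simp only [mem_ofPred_eq, mem_image, Finset.coe_filter, Finset.mem_univ, true_and]
        exact ⟨fun ⟨j, a, b⟩ => ⟨j, a ▸ b, a⟩, fun ⟨j, a, b⟩ => ⟨j, b, b ▸ a⟩⟩,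
        ncard_image_of_injective _ ht, ncard_coe_finset, Finset.card_filter]
      exact Finset.sum_congr rfl fun i _ => if_congr .rfl rfl rfl
  exact (aut_R j step s out r _ b).reg w h

end Pool.Agent.H.MP_655bfb_lc
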